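import Pool.Agent.H56.JWL.LIN

/-!
# MP_959f6e_co: linear connectivity for graphs with large cliques in all sets of neighbours

This covers the line graphs of hypergraphs with edges of size at most `r - 1`.
Modules: as for QuadraticConnectivity (board jwq_modules), and Pool.Agent.H56.JWL.
-/

set_option autoImplicit false

namespace Pool.Agent.Results.MP_959f6e_co.CliqueNeighbourhoods

theorem result (r c : ℕ) (hr : 2 ≤ r) (hc : 800 * (r - 1) ≤ c)
    (V : Type) [Fintype V] [DecidableEq V] (G : SimpleGraph V)
    (hconn : c < Fintype.card V ∧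
      ∀ S : Finset V, S.card < c → (G.induce ((S : Set V)ᶜ)).Connected)
    (hloc : ∀ (v : V) (H : Finset V), (∀ w ∈ H, G.Adj v w) →
      ∃ K ⊆ H, (K : Set V).Pairwise G.Adj ∧ H.card ≤ (r - 1) * K.card) :
    G.IsHamiltonian :=
  Pool.Agent.H56.JWL.mainL (r - 1) c (by omega) hc G hconn hloc

end Pool.Agent.Results.MP_959f6e_co.CliqueNeighbourhoods
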