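import Pool.Agent.H44.HC.FIN

/-!
# MP_959f6e_co: connectivity linear in `r` forces Hamiltonicity of `K_{1,r}`-free graphs of large
minimum degree; large connectivity forces it for all `K_{1,r}`-free graphs

Modules: helper44 (proof, HAX, FIN, generalisation to cliques of size `s`), helper14 (EUL),
helper20 (RAM), helper30 (PART, TJ), helper56 (CUT, HL, INS).
-/

set_option autoImplicit false

namespace Pool.Agent.Results.MP_959f6e_co.LinearConnectivity

theorem result (r s c : ℕ) (hr : 2 ≤ r) (hs : 7 ≤ s) (hc : 6 * s * (r - 1) ≤ c * (s - 6))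
    (V : Type) [Fintype V] [DecidableEq V] (G : SimpleGraph V)
    (hconn : c < Fintype.card V ∧
      ∀ S : Finset V, S.card < c → (G.induce ((S : Set V)ᶜ)).Connected)
    (hfree : ¬ ∃ (v : V) (T : Finset V), T.card = r ∧ (∀ w ∈ T, G.Adj v w) ∧
      (T : Set V).Pairwise (fun a b => ¬ G.Adj a b))
    (hdeg : (r + s - 1).choose s * (1 + (s + 1) * (r + s - 3).choose (s - 2)) ≤ c ∨
      ∀ v : V, (r + s - 1).choose s * (1 + (s + 1) * (r + s - 3).choose (s - 2)) ≤
        {w : V | G.Adj v w}.ncard) :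
    G.IsHamiltonian := by
  classical
  have hc2 : 2 ≤ c := by
    by_contra hcon
    have h1 : c * (s - 6) ≤ 1 * (s - 6) := Nat.mul_le_mul_right _ (by omega)
    have h2 : 6 * s * 1 ≤ 6 * s * (r - 1) := Nat.mul_le_mul_left _ (by omega)
    omega
  refine Pool.Agent.H44.HC.hamiltonian_of_kconn_degree r s c (by omega) hs hc2 hc V G hconn
    hfree ?_
  intro v
  rcases hdeg with h | h
  · obtain ⟨N, hN1, hN2⟩ := Pool.Agent.H44.HC.kconn_deg (G := G) hconn v
    exact ⟨N, hN1, h.trans hN2⟩
  · refine ⟨Finset.univ.filter (fun w => G.Adj v w), fun w hw => (Finset.mem_filter.1 hw).2, ?_⟩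
    refine (h v).trans (le_of_eq ?_)
    rw [← Set.ncard_coe_finset]
    congr 1
    ext w
    simp

end Pool.Agent.Results.MP_959f6e_co.LinearConnectivity
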