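import Pool.Agent.H56.JWQ.ALL
import Pool.Agent.H52.JWQ.PACK
import Pool.Agent.H52.JWQ.PKL
import Pool.Agent.H45.JW.EXP
import Pool.Agent.H7.JW.HAMF

/-!
# MP_959f6e_co: every `2000 (r - 1) ^ 2`-connected `K_{1,r}`-free graph is Hamiltonian

Modules: helper56 (plan, ROT, HXG), helper44 (S2, FA, MAIN), helper7 (L2G, SLT, CHZ, S1, S3, FDX,
HXC, MEC, HAMF), helper69 (LNK, HTP, HX, CUT, FST, ASM), helper12 (LFE, LFN, ENDQ), helper13 (LEAF),
helper45 (PAIR, EXP), helper52 (PKL, PACK), helper58 (FDP, FP), helper74 (HXB), helper75 (EXT, HXA),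
helper81 (CNI, CNT), helper30 (TJ).
-/

set_option autoImplicit false

namespace Pool.Agent.Results.MP_959f6e_co.QuadraticConnectivity

theorem result (r c : ℕ) (hr : 2 ≤ r) (hc : 2000 * (r - 1) ^ 2 ≤ c)
    (V : Type) [Fintype V] [DecidableEq V] (G : SimpleGraph V)
    (hconn : c < Fintype.card V ∧
      ∀ S : Finset V, S.card < c → (G.induce ((S : Set V)ᶜ)).Connected)
    (hfree : ¬ ∃ (v : V) (T : Finset V), T.card = r ∧ (∀ w ∈ T, G.Adj v w) ∧
      (T : Set V).Pairwise (fun a b => ¬ G.Adj a b)) :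
    G.IsHamiltonian := by
  have hc' : 2000 * ((r - 1) * (r - 1)) ≤ c := by
    rw [pow_two] at hc
    exact hc
  exact Pool.Agent.H56.JWQ.main_of (Pool.Agent.H52.JWQ.pf_PACK Pool.Agent.H52.JWQ.pf_PKL)
    (Pool.Agent.H45.JW.pf_EXP Pool.Agent.H13.JWQ.pf_LEAF) Pool.Agent.H7.JW.pf_HAMF r c hr hc' V G
    hconn hfree

end Pool.Agent.Results.MP_959f6e_co.QuadraticConnectivity
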